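import Mathlib
import Pool.Agent.H67.FS.Final3
import Pool.Agent.H94.FS.AG1
import Pool.Agent.H94.FS.QUAD
import Pool.Agent.H18.FS.AG2
import Pool.Agent.H75.FS.BC
import Pool.Agent.H87.FS.Col
import Pool.Agent.H87.FS.Dense
import Pool.Agent.H87.FS.Lift
import Pool.Agent.H87.FS.Minor
import Pool.Agent.H75.FS.DIM
import Pool.Agent.H28.FS.CONF
import Pool.Agent.H28.FS.HYP
import Pool.Agent.H29.FS.GRAD
import Pool.Agent.H29.FS.RK
import Pool.Agent.H19.FS.FLT
import Pool.Agent.H19.FS.GAL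
import Pool.Agent.H19.FS.VAL
import Pool.Agent.H36.FS.GADM
import Pool.Agent.H36.FS.GP8
import Pool.Agent.H36.FS.MARK
import Pool.Agent.H36.FS.NORM
import Pool.Agent.H36.FS.TAIL
import Pool.Agent.H60.FS.TF
import Pool.Agent.H60.FS.XY
import Pool.Agent.H60.FS.Z
import Pool.Agent.H70.FS.STR1
import Pool.Agent.H70.FS.STR2
import Pool.Agent.H70.FS.STR3
import Pool.Agent.H89.FS.LCX
import Pool.Agent.H92.FS.Y

/-!
# A component of a determinantal Fano scheme which is not unirational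

Full negative answer to Q1 (hence to Q2) of `MP_6f7589_ag`.
-/

namespace Pool.Agent.Results.MP_6f7589_ag.NotUnirational

open Pool.Agent.H67.FS

universe u

/-- **Q1, negative answer.**  Over every algebraically closed field `K` there are `m, n, r, k` with
`1 ≤ r ≤ min(m,n)` and an irreducible component of the Fano scheme `F_k(D^r_{m,n})` which is not
unirational. -/
theorem result : ∀ (K : Type u) [Field K] [IsAlgClosed K], ∃ m n r k : ℕ, 1 ≤ r ∧ r ≤ m ∧ r ≤ n ∧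
      ∃ Y : Set (Gr K m n k), IsComponent K m n k r Y ∧ ¬ Unirational K m n k Y := by
  have hMINOR := Pool.Agent.H87.FS.minor.{u}
  have hMAPFR := Pool.Agent.H87.FS.mapfr.{u} hMINOR
  have hY1 := Pool.Agent.H92.FS.y1.{u}
  have hY2 := Pool.Agent.H92.FS.y2.{u}
  have hZ := Pool.Agent.H60.FS.z.{u}
  have hRK := Pool.Agent.H29.FS.rk.{u} hY1 hY2 hZ
  have hHYP := Pool.Agent.H28.FS.hyp (Pool.Agent.H60.FS.tf Pool.Agent.H29.FS.grad hY1 hY2) hRK hZ
  exact final (Pool.Agent.H94.FS.ag1 hMINOR) (Pool.Agent.H18.FS.ag2 hMINOR) Pool.Agent.H60.FS.xy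
    (Pool.Agent.H28.FS.conf Pool.Agent.H36.FS.GADM Pool.Agent.H36.FS.GADA
      Pool.Agent.H36.FS.MARK Pool.Agent.H36.FS.GP8 Pool.Agent.H36.FS.NORM)
    (Pool.Agent.H75.FS.DIM hRK) (Pool.Agent.H87.FS.dense hMINOR) Pool.Agent.H19.FS.val hMAPFR
    hHYP (Pool.Agent.H75.FS.BC hMAPFR)
    (Pool.Agent.H89.FS.lcx Pool.Agent.H87.FS.lift Pool.Agent.H87.FS.col hMINOR)
    Pool.Agent.H70.FS.str1 Pool.Agent.H70.FS.str2 Pool.Agent.H70.FS.str3
    Pool.Agent.H19.FS.gal Pool.Agent.H94.FS.quad Pool.Agent.H19.FS.flt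

end Pool.Agent.Results.MP_6f7589_ag.NotUnirational
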